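import Pool.Agent.N206.CG.Stm

set_option autoImplicit false

/-!
# Project CG: B1

The two homomorphisms into permutations of sequences.
-/

namespace Pool.Agent.N227.CG

open Classical
open Pool.Agent.N206.CG

/-- the homomorphism into permutations given by an action -/
def homOf {G X : Type} [Group G] (F : G → X → X) (h1 : ∀ w, F 1 w = w)
    (h2 : ∀ a b w, F (a * b) w = F a (F b w)) : G →* Equiv.Perm X where
  toFun g :=
    { toFun := F g
      invFun := F g⁻¹
      left_inv := fun w => by rw [← h2, inv_mul_cancel, h1]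
      right_inv := fun w => by rw [← h2, mul_inv_cancel, h1] }
  map_one' := Equiv.ext h1
  map_mul' a b := Equiv.ext (h2 a b)

variable (L : Loc)

theorem psf_eq (n : ℕ) (b : L.B) (w : Om L) (m : ℕ) (hm : n ≤ m) (h1 : w m ≠ L.z m)
    (h2 : ∀ j, n ≤ j → j < m → w j = L.z j) : psf L n b w =
      if w m ∈ L.X m then Function.update w (m + 1) (L.rho (m + 1) b (w (m + 1))) else w := by
  have h : ∃ j, n ≤ j ∧ w j ≠ L.z j := ⟨m, hm, h1⟩
  have e : Nat.find h = m :=
    (Nat.find_eq_iff h).2 ⟨⟨hm, h1⟩, fun j hj hj' => hj'.2 (h2 j hj'.1 hj)⟩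
  unfold psf
  rw [dif_pos h, e]

theorem psf_none (n : ℕ) (b : L.B) (w : Om L) (h : ¬ ∃ j, n ≤ j ∧ w j ≠ L.z j) :
    psf L n b w = w := by
  unfold psf
  rw [dif_neg h]

theorem psf_mul (n : ℕ) (a b : L.B) (w : Om L) : psf L n (a * b) w = psf L n a (psf L n b w) := by
  by_cases h : ∃ j, n ≤ j ∧ w j ≠ L.z j
  · obtain ⟨m, ⟨hm, h1⟩, h2⟩ : ∃ m, (n ≤ m ∧ w m ≠ L.z m) ∧ ∀ j < m, ¬ (n ≤ j ∧ w j ≠ L.z j) :=
      ⟨Nat.find h, Nat.find_spec h, fun j hj => Nat.find_min h hj⟩
    have h3 : ∀ j, n ≤ j → j < m → w j = L.z j := fun j hj hjm => by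
      by_contra h4
      exact h2 j hjm ⟨hj, h4⟩
    rw [psf_eq L n (a * b) w m hm h1 h3, psf_eq L n b w m hm h1 h3]
    by_cases hX : w m ∈ L.X m
    · rw [if_pos hX, if_pos hX]
      have e1 : ∀ v : L.E (m + 1), Function.update w (m + 1) v m = w m := fun v =>
        Function.update_of_ne (by omega) _ _
      have e2 : ∀ v : L.E (m + 1), ∀ j, j < m → Function.update w (m + 1) v j = w j :=
        fun v j hj => Function.update_of_ne (by omega) _ _
      rw [psf_eq L n a _ m hm (by rw [e1]; exact h1)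
        (fun j hj hjm => by rw [e2 _ j hjm]; exact h3 j hj hjm), e1, if_pos hX,
        Function.update_self, Function.update_idem, map_mul, Equiv.Perm.mul_apply]
    · rw [if_neg hX, if_neg hX, psf_eq L n a w m hm h1 h3, if_neg hX]
  · rw [psf_none L n _ w h, psf_none L n _ w h, psf_none L n _ w h]

theorem psf_one (n : ℕ) (w : Om L) : psf L n 1 w = w := by
  by_cases h : ∃ j, n ≤ j ∧ w j ≠ L.z j
  · obtain ⟨m, ⟨hm, h1⟩, h2⟩ : ∃ m, (n ≤ m ∧ w m ≠ L.z m) ∧ ∀ j < m, ¬ (n ≤ j ∧ w j ≠ L.z j) :=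
      ⟨Nat.find h, Nat.find_spec h, fun j hj => Nat.find_min h hj⟩
    rw [psf_eq L n 1 w m hm h1 (fun j hj hjm => by
      by_contra h4
      exact h2 j hjm ⟨hj, h4⟩), map_one, Equiv.Perm.one_apply, Function.update_eq_self, ite_self]
  · exact psf_none L n 1 w h

theorem t_B1 : S_B1 L := by
  refine ⟨fun n => ⟨homOf (fun r w => Function.update w n ((r : Equiv.Perm (L.E n)) (w n)))
    (fun w => ?_) (fun a b w => ?_), fun r w => rfl⟩,
    fun n => ⟨homOf (psf L n) (psf_one L n) (psf_mul L n), fun b w => rfl⟩⟩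
  · show Function.update w n (((1 : L.P n) : Equiv.Perm (L.E n)) (w n)) = w
    rw [Subgroup.coe_one, Equiv.Perm.one_apply, Function.update_eq_self]
  · show Function.update w n (((a * b : L.P n) : Equiv.Perm (L.E n)) (w n)) =
      Function.update (Function.update w n ((b : Equiv.Perm (L.E n)) (w n))) n
        ((a : Equiv.Perm (L.E n)) (Function.update w n ((b : Equiv.Perm (L.E n)) (w n)) n))
    rw [Function.update_self, Function.update_idem, Subgroup.coe_mul, Equiv.Perm.mul_apply]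

end Pool.Agent.N227.CG
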